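import Mathlib
import Pool.Graph.R_seed8.R549.RE.Final

/-!
# Pairs of arbitrary graphs that are Ramsey equivalent to a pair of complete graphs

If `(G, H)` is Ramsey equivalent to `(K_t, K_t)`, where `G` and `H` need not be connected, then
both have clique number `t`, and every connected component that contains a `K_t` is a `K_t`.
-/

set_option autoImplicit false

namespace Pool.Agent.Results.MP_683e5e_co.AllPairs

/-- `F` is `(G, H)`-Ramsey: for every spanning subgraph `R` of `F` (the red edges) there is a copy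
of `G` in `R` or a copy of `H` in `F \ R` (copies are not necessarily induced) -/
def IsRamsey {V W₁ W₂ : Type} (F : SimpleGraph V) (G : SimpleGraph W₁) (H : SimpleGraph W₂) :
    Prop :=
  ∀ R : SimpleGraph V, R ≤ F →
    (∃ f : G →g R, Function.Injective f) ∨ (∃ f : H →g F \ R, Function.Injective f)

/-- `(G, H)` and `(G', H')` are Ramsey equivalent: the same finite graphs are Ramsey for them -/
def RamseyEquivalent {n m n' m' : ℕ} (G : SimpleGraph (Fin n)) (H : SimpleGraph (Fin m))
    (G' : SimpleGraph (Fin n')) (H' : SimpleGraph (Fin m')) : Prop :=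
  ∀ (k : ℕ) (F : SimpleGraph (Fin k)), IsRamsey F G H ↔ IsRamsey F G' H'

open Pool.Agent.R549.RE

/-- monotonicity in the first graph -/
theorem arr_mono {V W₁ W₁' W₂ : Type} {F : SimpleGraph V} {G : SimpleGraph W₁}
    {G' : SimpleGraph W₁'} {H : SimpleGraph W₂} (g : G' →g G) (hg : Function.Injective g)
    (h : Arr F G H) : Arr F G' H := by
  intro R hR
  rcases h R hR with ⟨f, hf⟩ | h1
  · exact Or.inl ⟨f.comp g, hf.comp hg⟩
  · exact Or.inr h1

/-- an edgeless graph is not in a pair equivalent to `(K_t, K_t)` -/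
theorem has_edge {t n m : ℕ} (ht : 2 ≤ t) {G : SimpleGraph (Fin n)} {H : SimpleGraph (Fin m)}
    (hEq : ∀ (V : Type) [Finite V] (F : SimpleGraph V),
      Arr F G H ↔ Arr F (⊤ : SimpleGraph (Fin t)) (⊤ : SimpleGraph (Fin t))) :
    ∃ x y, G.Adj x y := by
  by_contra hno
  push Not at hno
  have h1 : Arr (⊥ : SimpleGraph (Fin n)) G H := fun R hR =>
    Or.inl ⟨⟨id, fun {a b} hab => absurd hab (hno a b)⟩, fun a b h => h⟩
  have h2 := (hEq _ _).1 h1
  rw [arrK_iff] at h2
  refine h2 ⊥ le_rfl ⟨SimpleGraph.cliqueFree_bot ht, ?_⟩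
  refine cliqueFree_of_hom (⟨id, fun {a b} hab => ?_⟩ : (⊥ : SimpleGraph (Fin n)) \ ⊥ →g
    (⊥ : SimpleGraph (Fin n))) (SimpleGraph.cliqueFree_bot ht)
  rw [SimpleGraph.sdiff_adj] at hab
  exact hab.1

theorem not_cliqueFree {t n m : ℕ} (ht : 2 ≤ t) {G : SimpleGraph (Fin n)}
    {H : SimpleGraph (Fin m)}
    (hEq : ∀ (V : Type) [Finite V] (F : SimpleGraph V),
      Arr F G H ↔ Arr F (⊤ : SimpleGraph (Fin t)) (⊤ : SimpleGraph (Fin t))) :
    ¬ G.CliqueFree t := by
  intro hGt
  have hGe := has_edge ht hEq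
  rcases ht.eq_or_lt with rfl | ht
  · exact two_clique hGe hGt
  have ht3 : 3 ≤ t := ht
  by_cases hHR : Arr H (⊤ : SimpleGraph (Fin t)) (⊤ : SimpleGraph (Fin t))
  · exact caseB2 ht3 hGe hHR (fun V _ F h => (hEq V F).2 h)
  · obtain ⟨V, hV, F, h1, h2⟩ := caseB1 ht3 hGt hHR
    exact h2 ((hEq V F).1 h1)

theorem eq_swap {t n m : ℕ} {G : SimpleGraph (Fin n)} {H : SimpleGraph (Fin m)}
    (hEq : ∀ (V : Type) [Finite V] (F : SimpleGraph V),
      Arr F G H ↔ Arr F (⊤ : SimpleGraph (Fin t)) (⊤ : SimpleGraph (Fin t)))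
    (V : Type) [Finite V] (F : SimpleGraph V) :
    Arr F H G ↔ Arr F (⊤ : SimpleGraph (Fin t)) (⊤ : SimpleGraph (Fin t)) :=
  ⟨fun h => (hEq V F).1 (arr_swap h), fun h => arr_swap ((hEq V F).2 h)⟩

/-- components containing `K_t` are `K_t` -/
theorem comp_iso {t n m : ℕ} (ht : 2 ≤ t) {G : SimpleGraph (Fin n)} {H : SimpleGraph (Fin m)}
    (hEq : ∀ (V : Type) [Finite V] (F : SimpleGraph V),
      Arr F G H ↔ Arr F (⊤ : SimpleGraph (Fin t)) (⊤ : SimpleGraph (Fin t)))
    (C : G.ConnectedComponent) (hC : ¬ (G.induce C.supp).CliqueFree t) :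
    Nonempty (G.induce C.supp ≃g (⊤ : SimpleGraph (Fin t))) := by
  classical
  have := Fintype.ofFinite C.supp
  let e : C.supp ≃ Fin (Fintype.card C.supp) := Fintype.equivFin _
  let G' : SimpleGraph (Fin (Fintype.card C.supp)) := (G.induce C.supp).comap e.symm
  let φ : G.induce C.supp ≃g G' := ⟨e, by intro a b; simp [G']⟩
  have hconn : (G.induce C.supp).Connected := C.maximal_connected_induce_supp.prop
  have hG'c : G'.Connected := φ.connected_iff.1 hconn
  have hG't : ¬ G'.CliqueFree t := fun h => hC (cliqueFree_of_hom φ.toHom h)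
  let g : G' →g G := (SimpleGraph.Embedding.induce C.supp).toHom.comp φ.symm.toHom
  have hg : Function.Injective g := Subtype.val_injective.comp φ.symm.injective
  have hHt := not_cliqueFree ht (eq_swap hEq)
  have hcard : Fintype.card C.supp ≤ t := by
    rcases ht.eq_or_lt with rfl | ht3
    · have h2 : Arr (⊤ : SimpleGraph (Fin 2)) G' H := arr_mono g hg ((hEq _ _).2 arrK_two)
      exact arr_two (has_edge ht (eq_swap hEq)) h2
    · by_contra hlt
      obtain ⟨V, hV, F, h1, h2⟩ := caseA ht3 hG'c (by omega) hG't hHt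
      exact h2 (arr_mono g hg ((hEq V F).2 h1))
  obtain ⟨ψ⟩ := iso_top hG't hcard
  exact ⟨φ.trans ψ⟩

/-- a copy of `K_s`, `s ≥ 1`, lies in one component -/
theorem exists_comp {n s : ℕ} (hs : 1 ≤ s) {G : SimpleGraph (Fin n)} (h : ¬ G.CliqueFree s) :
    ∃ C : G.ConnectedComponent, ¬ (G.induce C.supp).CliqueFree s := by
  obtain ⟨f⟩ := not_cliqueFree_iff_hom.1 h
  refine ⟨G.connectedComponentMk (f ⟨0, hs⟩), ?_⟩
  refine not_cliqueFree_iff_hom.2 ⟨⟨fun i => ⟨f i, ?_⟩, fun {a b} hab => f.map_adj hab⟩⟩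
  rw [SimpleGraph.ConnectedComponent.mem_supp_iff, SimpleGraph.ConnectedComponent.eq]
  by_cases hi : i = ⟨0, hs⟩
  · rw [hi]
  · exact (f.map_adj (show (⊤ : SimpleGraph (Fin s)).Adj i ⟨0, hs⟩ from hi)).reachable

/-- the conclusion for one of the two graphs -/
def Good {n : ℕ} (t : ℕ) (G : SimpleGraph (Fin n)) : Prop :=
  (∃ C : G.ConnectedComponent, Nonempty (G.induce C.supp ≃g (⊤ : SimpleGraph (Fin t)))) ∧
  G.CliqueFree (t + 1) ∧
  ∀ C : G.ConnectedComponent, (G.induce C.supp).CliqueFree t ∨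
    Nonempty (G.induce C.supp ≃g (⊤ : SimpleGraph (Fin t)))

theorem good_of {t n m : ℕ} (ht : 2 ≤ t) {G : SimpleGraph (Fin n)} {H : SimpleGraph (Fin m)}
    (hEq : ∀ (V : Type) [Finite V] (F : SimpleGraph V),
      Arr F G H ↔ Arr F (⊤ : SimpleGraph (Fin t)) (⊤ : SimpleGraph (Fin t))) : Good t G := by
  refine ⟨?_, ?_, fun C => ?_⟩
  · obtain ⟨C, hC⟩ := exists_comp (by omega) (not_cliqueFree ht hEq)
    exact ⟨C, comp_iso ht hEq C hC⟩
  · by_contra h
    obtain ⟨C, hC⟩ := exists_comp (by omega) h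
    have hC2 : ¬ (G.induce C.supp).CliqueFree t := fun h2 => hC (h2.mono (by omega))
    obtain ⟨ψ⟩ := comp_iso ht hEq C hC2
    have h3 : ¬ (⊤ : SimpleGraph (Fin t)).CliqueFree (t + 1) := fun h4 =>
      hC (cliqueFree_of_hom ψ.toHom h4)
    exact h3 (SimpleGraph.cliqueFree_of_card_lt (by simp))
  · by_cases hC : (G.induce C.supp).CliqueFree t
    · exact Or.inl hC
    · exact Or.inr (comp_iso ht hEq C hC)

/-- `K_t` together with an isolated vertex -/
def kPlus (t : ℕ) : SimpleGraph (Fin (t + 1)) :=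
  SimpleGraph.map Fin.castSuccEmb (⊤ : SimpleGraph (Fin t))

theorem kPlus_equiv {t : ℕ} (ht : 3 ≤ t) :
    RamseyEquivalent (kPlus t) (⊤ : SimpleGraph (Fin t)) (⊤ : SimpleGraph (Fin t))
      (⊤ : SimpleGraph (Fin t)) := by
  classical
  intro k F
  constructor
  · intro h
    refine arr_mono ⟨Fin.castSucc, fun {a b} hab => ?_⟩ (Fin.castSucc_injective t) h
    exact (SimpleGraph.map_adj _ _ _ _).2 ⟨a, b, hab, rfl, rfl⟩
  · intro h
    have hk : t < k := by
      by_contra hk
      have hcl : ∀ R : SimpleGraph (Fin k), R.CliqueFree t ∨ (k = t ∧ R = ⊤) := by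
        intro R
        by_cases hR : R.CliqueFree t
        · exact Or.inl hR
        · obtain ⟨f⟩ := not_cliqueFree_iff_hom.1 hR
          have h1 := Fintype.card_le_of_injective f (hom_inj f)
          rw [Fintype.card_fin, Fintype.card_fin] at h1
          obtain rfl : k = t := by omega
          have hsurj := Finite.surjective_of_injective (hom_inj f)
          refine Or.inr ⟨rfl, ?_⟩
          ext x y
          refine ⟨fun h => h.ne, fun h => ?_⟩
          obtain ⟨a, rfl⟩ := hsurj x
          obtain ⟨b, rfl⟩ := hsurj y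
          exact f.map_adj (fun hab => h (by rw [hab]))
      rcases hcl F with hF | ⟨rfl, rfl⟩
      · have h1 := (arrK_iff.1 h) ⊥ bot_le
        refine h1 ⟨SimpleGraph.cliqueFree_bot (by omega), ?_⟩
        exact cliqueFree_of_hom ⟨id, fun {a b} hab => by
          rw [SimpleGraph.sdiff_adj] at hab; exact hab.1⟩ hF
      · let a : Fin k := ⟨0, by omega⟩
        let b : Fin k := ⟨1, by omega⟩
        let c : Fin k := ⟨2, by omega⟩
        have hab : a ≠ b := by simp [a, b]
        have hac : a ≠ c := by simp [a, c]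
        have hbc : b ≠ c := by simp [b, c]
        have h1 := (arrK_iff.1 h) (SimpleGraph.edge a b) le_top
        refine h1 ⟨?_, ?_⟩
        · rcases hcl (SimpleGraph.edge a b) with h2 | ⟨-, h2⟩
          · exact h2
          · exfalso
            have h3 : (SimpleGraph.edge a b).Adj a c := by rw [h2]; exact hac
            rw [SimpleGraph.edge_adj] at h3
            rcases h3.1 with ⟨-, h3⟩ | ⟨h3, -⟩
            · exact hbc h3.symm
            · exact hab h3
        · rcases hcl ((⊤ : SimpleGraph (Fin k)) \ SimpleGraph.edge a b) with h2 | ⟨-, h2⟩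
          · exact h2
          · exfalso
            have h3 : ((⊤ : SimpleGraph (Fin k)) \ SimpleGraph.edge a b).Adj a b := by
              rw [h2]; exact hab
            rw [SimpleGraph.sdiff_adj, SimpleGraph.edge_adj] at h3
            exact h3.2 ⟨Or.inl ⟨rfl, rfl⟩, hab⟩
    intro R hR
    rcases h R hR with ⟨f, hf⟩ | h1
    · left
      obtain ⟨v, hv⟩ : ∃ v, v ∉ Set.range f := by
        by_contra hno
        push Not at hno
        have h1 := Fintype.card_le_of_surjective f (fun v => hno v)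
        rw [Fintype.card_fin, Fintype.card_fin] at h1
        omega
      refine ⟨⟨fun i => if hi : (i : ℕ) < t then f ⟨i, hi⟩ else v, fun {a b} hab => ?_⟩, ?_⟩
      · obtain ⟨a', b', h1, rfl, rfl⟩ := (SimpleGraph.map_adj _ _ _ _).1 hab
        have e1 : ∀ c : Fin t, (if hi : ((Fin.castSuccEmb c : Fin (t + 1)) : ℕ) < t then
            f ⟨((Fin.castSuccEmb c : Fin (t + 1)) : ℕ), hi⟩ else v) = f c := fun c =>
          dif_pos c.isLt
        rw [e1, e1]
        exact f.map_adj h1
      · intro a b hab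
        simp only [RelHom.coeFn_mk] at hab
        by_cases ha : (a : ℕ) < t <;> by_cases hb : (b : ℕ) < t
        · rw [dif_pos ha, dif_pos hb] at hab
          have := hf hab
          simp only [Fin.mk.injEq] at this
          exact Fin.ext this
        · rw [dif_pos ha, dif_neg hb] at hab
          exact absurd ⟨_, hab⟩ hv
        · rw [dif_neg ha, dif_pos hb] at hab
          exact absurd ⟨_, hab.symm⟩ hv
        · exact Fin.ext (by omega)
    · exact Or.inr h1

/-- **Pairs of arbitrary graphs Ramsey equivalent to `(K_t, K_t)`.**  (1) If `t ≥ 2` and the pair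
`(G, H)` of finite graphs, connected or not, is Ramsey equivalent to `(K_t, K_t)`, then in each of
`G` and `H`: some connected component is a `K_t`, there is no `K_{t+1}`, and every connected
component is either `K_t`-free or isomorphic to `K_t`.  (2) In particular, if `G` (or `H`) is
connected, then it is isomorphic to `K_t`.  (3) Disconnected pairs do occur: for `t ≥ 3` the pair
consisting of `K_t` with an isolated vertex added and of `K_t` is Ramsey equivalent to
`(K_t, K_t)`. -/
theorem result :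
    (∀ t : ℕ, 2 ≤ t → ∀ (n m : ℕ) (G : SimpleGraph (Fin n)) (H : SimpleGraph (Fin m)),
      RamseyEquivalent G H (⊤ : SimpleGraph (Fin t)) (⊤ : SimpleGraph (Fin t)) →
        (Good t G ∧ Good t H) ∧
        (G.Connected → Nonempty (G ≃g (⊤ : SimpleGraph (Fin t)))) ∧
        (H.Connected → Nonempty (H ≃g (⊤ : SimpleGraph (Fin t))))) ∧
    (∀ t : ℕ, 3 ≤ t → ¬ (kPlus t).Connected ∧
      RamseyEquivalent (kPlus t) (⊤ : SimpleGraph (Fin t)) (⊤ : SimpleGraph (Fin t))
        (⊤ : SimpleGraph (Fin t))) := by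
  have conn : ∀ {t n : ℕ} {G : SimpleGraph (Fin n)}, Good t G → G.Connected →
      Nonempty (G ≃g (⊤ : SimpleGraph (Fin t))) := by
    rintro t n G ⟨⟨C, ⟨ψ⟩⟩, -, -⟩ hG
    have hC : C.supp = Set.univ := by
      have := hG.preconnected.subsingleton_connectedComponent
      obtain ⟨v, rfl⟩ := C.exists_rep
      ext w
      simp only [Set.mem_univ, iff_true]
      exact Subsingleton.elim _ _
    rw [hC] at ψ
    exact ⟨(SimpleGraph.induceUnivIso G).symm.trans ψ⟩
  refine ⟨fun t ht n m G H h => ?_, fun t ht => ⟨?_, kPlus_equiv ht⟩⟩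
  · have hEq : ∀ (V : Type) [Finite V] (F : SimpleGraph V),
        Arr F G H ↔ Arr F (⊤ : SimpleGraph (Fin t)) (⊤ : SimpleGraph (Fin t)) :=
      fun V _ F => transport (fun k F => h k F) V F
    have hG := good_of ht hEq
    have hH := good_of ht (eq_swap hEq)
    exact ⟨⟨hG, hH⟩, conn hG, conn hH⟩
  · intro hconn
    have h0 : Fin.last t ≠ Fin.castSucc ⟨0, by omega⟩ := (Fin.castSucc_lt_last _).ne'
    obtain ⟨w, hw⟩ : ∃ w, w = Fin.castSucc (⟨0, by omega⟩ : Fin t) := ⟨_, rfl⟩
    rw [← hw] at h0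
    obtain ⟨p⟩ := hconn.preconnected (Fin.last t) w
    cases p with
    | nil => exact h0 rfl
    | cons h p =>
      obtain ⟨a, b, -, h1, -⟩ := (SimpleGraph.map_adj _ _ _ _).1 h
      exact absurd h1 (Fin.castSucc_lt_last a).ne

end Pool.Agent.Results.MP_683e5e_co.AllPairs
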